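import Pool.Agent.H587R3.Core
import Pool.Agent.H587R3.Six

set_option autoImplicit false

/-!
A negative answer to both questions on single-orbit characterizations of affine-invariant
properties: there are affine-invariant properties of functions `𝔽_{2^t} → 𝔽_2` with a `6`-local
characterization all of whose single-orbit characterizations have arbitrarily large locality.

Construction: `t` is a product of `r` pairwise coprime numbers `s_i`; the property is cut out by the
affine orbits of `r` dual words of weight six, the `i`-th one being a minimum weight word of the dual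
of the double-error-correcting BCH code of the subfield `𝔽_{2^{s_i}}`. A single constraint on `k`
points whose orbit characterizes the property yields a diagonal `r × r` matrix of moments with
nonzero diagonal that factors through a `k`-dimensional space.
-/

namespace Pool.Agent.Results.MP_cb1103_lc.UnboundedLocality

open Finset Pool.Agent.H587R3

/-- A `k`-local constraint on functions `K → F`: `k` points of `K` and a proper subset of `F^k`. -/
structure LocalConstraint (K F : Type) (k : ℕ) where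
  /-- the points `α_1, …, α_k` -/
  pts : Fin k → K
  /-- the set of allowed value vectors -/
  allowed : Set (Fin k → F)
  /-- it is a proper subset of `F^k` -/
  proper : allowed ≠ Set.univ

/-- `f` satisfies the constraint if `(f(α_1), …, f(α_k)) ∈ S`. -/
def LocalConstraint.Sat {K F : Type} {k : ℕ} (C : LocalConstraint K F k) (f : K → F) : Prop :=
  (fun i => f (C.pts i)) ∈ C.allowed

/-- The constraint `C ∘ π` for the affine map `π(x) = a x + b`. -/
def LocalConstraint.comp {K F : Type} [Field K] {k : ℕ} (C : LocalConstraint K F k) (a b : K) :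
    LocalConstraint K F k :=
  ⟨fun i => a * C.pts i + b, C.allowed, C.proper⟩

/-- `P` is affine-invariant: an `F`-linear subspace with `f(a x + b) ∈ P` for all `f ∈ P`, `a ≠ 0`. -/
def AffineInvariant {K F : Type} [Field K] [Field F] (P : Set (K → F)) : Prop :=
  (∃ V : Submodule F (K → F), (V : Set (K → F)) = P) ∧
    ∀ f ∈ P, ∀ a b : K, a ≠ 0 → (fun x => f (a * x + b)) ∈ P

/-- `P` has a `k`-local characterization. -/
def HasLocalChar {K F : Type} (k : ℕ) (P : Set (K → F)) : Prop :=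
  ∃ Φ : Set (LocalConstraint K F k), ∀ f : K → F, f ∈ P ↔ ∀ C ∈ Φ, C.Sat f

/-- `P` has a `k`-single orbit characterization. -/
def HasSingleOrbitChar {K F : Type} [Field K] (k : ℕ) (P : Set (K → F)) : Prop :=
  ∃ C : LocalConstraint K F k, ∀ f : K → F,
    f ∈ P ↔ ∀ a b : K, a ≠ 0 → (C.comp a b).Sat f

section field

variable {t : ℕ}

/-- The absolute trace. -/
noncomputable def tr (y : GaloisField 2 t) : ZMod 2 := Algebra.trace (ZMod 2) (GaloisField 2 t) y

lemma tr_add (x y : GaloisField 2 t) : tr (x + y) = tr x + tr y := by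
  unfold tr; rw [map_add]

lemma tr_sum {ι : Type*} (s : Finset ι) (g : ι → GaloisField 2 t) :
    tr (∑ l ∈ s, g l) = ∑ l ∈ s, tr (g l) := by
  unfold tr; rw [map_sum]

/-- The nondegeneracy of the trace. -/
lemma eq_zero_of_tr {y : GaloisField 2 t} (h : ∀ u : GaloisField 2 t, tr (u * y) = 0) : y = 0 := by
  have h1 := (traceForm_nondegenerate (ZMod 2) (GaloisField 2 t)).1 y
  apply h1
  intro u
  rw [Algebra.traceForm_apply, mul_comm]
  exact h u

lemma tr_weighted {k : ℕ} (w : Fin k → ZMod 2) (z : Fin k → GaloisField 2 t)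
    (u : GaloisField 2 t) :
    tr (u * ∑ l, algebraMap (ZMod 2) (GaloisField 2 t) (w l) * z l) =
      ∑ l, w l * tr (u * z l) := by
  unfold tr
  rw [Finset.mul_sum, map_sum]
  apply Finset.sum_congr rfl
  intro l _
  have : u * (algebraMap (ZMod 2) (GaloisField 2 t) (w l) * z l) = w l • (u * z l) := by
    rw [Algebra.smul_def]; ring
  rw [this, map_smul, smul_eq_mul]

lemma pow_mod_of_fix {K : Type*} [Field K] {x : K} {s : ℕ} (h : x ^ 2 ^ s = x) (m : ℕ) :
    x ^ 2 ^ m = x ^ 2 ^ (m % s) := by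
  conv_lhs => rw [← Nat.div_add_mod m s]
  rw [pow_add, pow_mul]
  congr 1
  generalize m / s = q
  induction q with
  | zero => simp
  | succ q ih => rw [Nat.mul_succ, pow_add, pow_mul, ih, h]

lemma two_zero : (2 : GaloisField 2 t) = 0 := CharTwo.two_eq_zero

/-- The property cut out by the affine orbits of the words `w i`. -/
def PP {r : ℕ} (w : Fin r → Fin 6 → GaloisField 2 t) :
    Submodule (ZMod 2) (GaloisField 2 t → ZMod 2) where
  carrier := {f | ∀ (i : Fin r) (a b : GaloisField 2 t), ∑ l, f (a * w i l + b) = 0}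
  add_mem' := by
    intro f g hf hg i a b
    simp only [Pi.add_apply]
    rw [Finset.sum_add_distrib, hf, hg, add_zero]
  zero_mem' := by
    intro i a b
    simp
  smul_mem' := by
    intro c f hf i a b
    simp only [Pi.smul_apply, smul_eq_mul]
    rw [← Finset.mul_sum, hf, mul_zero]

variable {r : ℕ} {w : Fin r → Fin 6 → GaloisField 2 t}

lemma sum_pow_two_pow (h1 : ∀ i, ∑ l, w i l = 0) (i : Fin r) (m : ℕ) :
    ∑ l, w i l ^ 2 ^ m = 0 := by
  have := Fact.mk Nat.prime_two
  rw [← sum_pow_char_pow 2 m, h1]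
  simp

lemma const_mem (c : ZMod 2) : (fun _ : GaloisField 2 t => c) ∈ PP w := by
  intro i a b
  simp only [Finset.sum_const, Finset.card_univ, Fintype.card_fin]
  have : (6 : ZMod 2) = 0 := by decide
  rw [nsmul_eq_mul]
  push_cast
  rw [this, zero_mul]

lemma lin_mem (h1 : ∀ i, ∑ l, w i l = 0) (u : GaloisField 2 t) (m : ℕ) :
    (fun x : GaloisField 2 t => tr (u * x ^ 2 ^ m)) ∈ PP w := by
  intro i a b
  have := Fact.mk Nat.prime_two
  simp only
  rw [← tr_sum, ← Finset.mul_sum]
  have : ∑ l, (a * w i l + b) ^ 2 ^ m = 0 := by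
    simp_rw [add_pow_char_pow, mul_pow]
    rw [Finset.sum_add_distrib, ← Finset.mul_sum, sum_pow_two_pow h1]
    simp only [Finset.sum_const, Finset.card_univ, Fintype.card_fin, nsmul_eq_mul]
    push_cast
    linear_combination (3 * b ^ 2 ^ m) * two_zero (t := t)
  rw [this, mul_zero]
  unfold tr; simp

lemma quad_mem (h1 : ∀ i, ∑ l, w i l = 0) {m n : ℕ}
    (h : ∀ i, ∑ l, w i l ^ (2 ^ m + 2 ^ n) = 0) (u : GaloisField 2 t) :
    (fun x : GaloisField 2 t => tr (u * x ^ (2 ^ m + 2 ^ n))) ∈ PP w := by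
  intro i a b
  have := Fact.mk Nat.prime_two
  simp only
  rw [← tr_sum, ← Finset.mul_sum]
  have : ∑ l, (a * w i l + b) ^ (2 ^ m + 2 ^ n) = 0 := by
    have e : ∀ l, (a * w i l + b) ^ (2 ^ m + 2 ^ n) =
        a ^ (2 ^ m + 2 ^ n) * w i l ^ (2 ^ m + 2 ^ n) + (a ^ 2 ^ m * b ^ 2 ^ n) * w i l ^ 2 ^ m +
          (a ^ 2 ^ n * b ^ 2 ^ m) * w i l ^ 2 ^ n + b ^ (2 ^ m + 2 ^ n) := by
      intro l
      rw [pow_add, add_pow_char_pow, add_pow_char_pow]
      ring
    simp_rw [e]
    rw [Finset.sum_add_distrib, Finset.sum_add_distrib, Finset.sum_add_distrib,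
      ← Finset.mul_sum, ← Finset.mul_sum, ← Finset.mul_sum, h, sum_pow_two_pow h1,
      sum_pow_two_pow h1]
    simp only [Finset.sum_const, Finset.card_univ, Fintype.card_fin, nsmul_eq_mul]
    push_cast
    linear_combination (3 * b ^ (2 ^ m + 2 ^ n)) * two_zero (t := t)
  rw [this, mul_zero]
  unfold tr; simp

/-- The key step: a single-orbit characterization gives, for every monomial `x ^ (2^m + 2^n)` that
is not annihilated by all the words, a functional on the `k` points that kills the property but not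
this monomial. -/
lemma exists_weight (h1 : ∀ i, ∑ l, w i l = 0) {m n : ℕ} {i : Fin r}
    (h : ∑ l, w i l ^ (2 ^ m + 2 ^ n) ≠ 0) {k : ℕ} (C : LocalConstraint (GaloisField 2 t) (ZMod 2) k)
    (hC : ∀ f : GaloisField 2 t → ZMod 2,
      f ∈ PP w ↔ ∀ a b : GaloisField 2 t, a ≠ 0 → (C.comp a b).Sat f) :
    ∃ v : Fin k → ZMod 2, (∀ f ∈ PP w, ∑ l, v l * f (C.pts l) = 0) ∧
      ∑ l, algebraMap (ZMod 2) (GaloisField 2 t) (v l) * C.pts l ^ (2 ^ m + 2 ^ n) ≠ 0 := by
  have := Fact.mk Nat.prime_two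
  obtain ⟨u, hu⟩ : ∃ u : GaloisField 2 t, tr (u * ∑ l, w i l ^ (2 ^ m + 2 ^ n)) ≠ 0 := by
    by_contra hcon
    push Not at hcon
    exact h (eq_zero_of_tr hcon)
  set g : GaloisField 2 t → ZMod 2 := fun x => tr (u * x ^ (2 ^ m + 2 ^ n)) with hg
  have hgP : g ∉ PP w := by
    intro hmem
    have h2 := hmem i 1 0
    apply hu
    rw [Finset.mul_sum, tr_sum, ← h2]
    apply Finset.sum_congr rfl
    intro l _
    rw [hg]; simp
  rw [hC] at hgP
  push Not at hgP
  obtain ⟨a, b, ha, hab⟩ := hgP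
  let res : (GaloisField 2 t → ZMod 2) →ₗ[ZMod 2] (Fin k → ZMod 2) :=
    { toFun := fun f i => f (C.pts i)
      map_add' := fun f g => rfl
      map_smul' := fun r f => rfl }
  have hv : (fun l => g (a * C.pts l + b)) ∉ (PP w).map res := by
    rintro ⟨f, hf, hfe⟩
    apply hab
    have h3 := (hC f).1 hf 1 0 one_ne_zero
    have h4 : (fun l => f (C.pts l)) = fun l => g (a * C.pts l + b) := hfe
    show (fun l => g (a * C.pts l + b)) ∈ C.allowed
    rw [← h4]
    have h5 : (fun l => f (1 * C.pts l + 0)) ∈ C.allowed := h3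
    simpa using h5
  obtain ⟨v, hv1, hv2⟩ := exists_functional _ _ hv
  refine ⟨v, fun f hf => hv1 _ ⟨f, hf, rfl⟩, ?_⟩
  intro h0
  apply hv2
  have e : ∀ l, g (a * C.pts l + b) =
      tr (u * a ^ (2 ^ m + 2 ^ n) * C.pts l ^ (2 ^ m + 2 ^ n)) +
        tr (u * (a ^ 2 ^ m * b ^ 2 ^ n) * C.pts l ^ 2 ^ m) +
        tr (u * (a ^ 2 ^ n * b ^ 2 ^ m) * C.pts l ^ 2 ^ n) + tr (u * b ^ (2 ^ m + 2 ^ n)) := by
    intro l
    rw [hg]
    simp only
    rw [← tr_add, ← tr_add, ← tr_add, pow_add, add_pow_char_pow, add_pow_char_pow]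
    congr 1
    ring
  simp_rw [e, mul_add]
  rw [Finset.sum_add_distrib, Finset.sum_add_distrib, Finset.sum_add_distrib]
  have z1 : ∑ l, v l * tr (u * a ^ (2 ^ m + 2 ^ n) * C.pts l ^ (2 ^ m + 2 ^ n)) = 0 := by
    rw [← tr_weighted v (fun l => C.pts l ^ (2 ^ m + 2 ^ n)), h0, mul_zero]
    unfold tr; simp
  have z2 : ∀ (c : GaloisField 2 t) (q : ℕ), ∑ l, v l * tr (c * C.pts l ^ 2 ^ q) = 0 :=
    fun c q => hv1 _ ⟨_, lin_mem h1 c q, rfl⟩
  have z3 : ∀ c : ZMod 2, ∑ l, v l * c = 0 := fun c => hv1 _ ⟨_, const_mem c, rfl⟩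
  rw [z1, z2, z2, z3]
  simp

end field

/-- Simultaneous congruences for pairwise coprime moduli. -/
lemma crt {r : ℕ} (s : Fin r → ℕ) (hs : ∀ i, 2 ≤ s i)
    (hc : ∀ i j, i ≠ j → Nat.Coprime (s i) (s j)) (a : Fin r) (c : ℕ) (hca : c < s a) :
    ∃ m, m % s a = c ∧ ∀ i ≠ a, m % s i = 0 := by
  have hcop : Nat.Coprime (∏ i ∈ univ.erase a, s i) (s a) := by
    apply Nat.Coprime.prod_left
    intro i hi
    exact hc i a (Finset.ne_of_mem_erase hi)
  obtain ⟨m, -, hm⟩ := Nat.exists_mul_mod_eq_one_of_coprime hcop (hs a)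
  refine ⟨(∏ i ∈ univ.erase a, s i) * m * c, ?_, ?_⟩
  · rw [Nat.mul_mod, hm, one_mul, Nat.mod_mod, Nat.mod_eq_of_lt hca]
  · intro i hi
    apply Nat.mod_eq_zero_of_dvd
    apply Dvd.dvd.mul_right
    apply Dvd.dvd.mul_right
    exact Finset.dvd_prod_of_mem _ (Finset.mem_erase.2 ⟨hi, Finset.mem_univ i⟩)

/-- Six elements of a subfield. -/
lemma exists_word {s t : ℕ} (hs : 5 ≤ s) (ht : t ≠ 0) (hst : s ∣ t) :
    ∃ α : Fin 6 → GaloisField 2 t, (∀ l, α l ^ 2 ^ s = α l) ∧ ∑ l, α l = 0 ∧
      ∑ l, α l ^ 3 = 0 ∧ ∑ l, α l ^ 5 ≠ 0 := by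
  have := Fact.mk Nat.prime_two
  have hs0 : s ≠ 0 := by omega
  have := Fintype.ofFinite (GaloisField 2 s)
  have hcard : Fintype.card (GaloisField 2 s) = 2 ^ s := by
    rw [← Nat.card_eq_fintype_card, GaloisField.card 2 s hs0]
  obtain ⟨α, h1, h3, h5⟩ := exists_six (GaloisField 2 s) (by
    rw [hcard]
    calc 16 ≤ 2 ^ 5 := by norm_num
      _ ≤ 2 ^ s := Nat.pow_le_pow_right (by norm_num) hs)
  obtain ⟨φ⟩ := FiniteField.nonempty_algHom_of_finrank_dvd (F := ZMod 2) (K := GaloisField 2 s)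
    (L := GaloisField 2 t) (by rw [GaloisField.finrank 2 hs0, GaloisField.finrank 2 ht]; exact hst)
  refine ⟨fun l => φ (α l), ?_, ?_, ?_, ?_⟩
  · intro l
    simp only
    rw [← map_pow, ← hcard, FiniteField.pow_card]
  · simp only
    rw [← map_sum, h1, map_zero]
  · simp only [← map_pow]
    rw [← map_sum, h3, map_zero]
  · simp only [← map_pow]
    rw [← map_sum]
    intro h0
    exact h5 ((map_eq_zero φ).1 h0)

/-- **Negative answer to Q1 and Q2.** For every `r` there are `t ≥ 1` and an affine-invariant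
property `P` of functions `𝔽_{2^t} → 𝔽_2` that has a `6`-local characterization, has some single
orbit characterization, and all of whose single orbit characterizations have locality at
least `r`. -/
theorem result (r : ℕ) :
    ∃ t : ℕ, 0 < t ∧ ∃ P : Set (GaloisField 2 t → ZMod 2),
      AffineInvariant P ∧ HasLocalChar 6 P ∧ (∃ k', HasSingleOrbitChar k' P) ∧
        ∀ k', HasSingleOrbitChar k' P → r ≤ k' := by
  classical
  have := Fact.mk Nat.prime_two
  -- it suffices to treat positive `r`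
  wlog hr : 0 < r generalizing r
  · obtain ⟨t, ht, P, h1, h2, h3, h4⟩ := this 1 one_pos
    exact ⟨t, ht, P, h1, h2, h3, fun k' h => by omega⟩
  -- pairwise coprime numbers
  obtain ⟨s, hs5, hsc⟩ : ∃ s : Fin r → ℕ, (∀ i, 5 ≤ s i) ∧
      ∀ i j, i ≠ j → Nat.Coprime (s i) (s j) := by
    refine ⟨fun i => Nat.nth Nat.Prime (i + 2), ?_, ?_⟩
    · intro i
      have h2 : Nat.nth Nat.Prime 2 = 5 := Nat.nth_prime_two_eq_five
      rw [← h2]
      exact (Nat.nth_monotone Nat.infinite_setOfPred_prime) (by omega)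
    · intro i j hij
      apply (Nat.coprime_primes (Nat.prime_nth_prime _) (Nat.prime_nth_prime _)).2
      intro h
      apply hij
      have := Nat.nth_injective Nat.infinite_setOfPred_prime h
      exact Fin.ext (by omega)
  set t : ℕ := ∏ i, s i with ht
  have ht0 : t ≠ 0 := by
    rw [ht, Finset.prod_ne_zero_iff]
    intro i _
    have := hs5 i
    omega
  choose w hfix h1 h3 h5 using fun i => exists_word (hs5 i) ht0
    (Finset.dvd_prod_of_mem s (Finset.mem_univ i))
  choose I hI hI0 using fun a => crt s (fun i => by have := hs5 i; omega) hsc a 1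
    (by have := hs5 a; omega)
  choose E hE hE0 using fun a => crt s (fun i => by have := hs5 i; omega) hsc a (s a - 1)
    (by have := hs5 a; omega)
  -- the moments of the words
  have hmom : ∀ i (m n : ℕ), ∑ l, w i l ^ (2 ^ m + 2 ^ n) =
      ∑ l, w i l ^ 2 ^ (m % s i) * w i l ^ 2 ^ (n % s i) := by
    intro i m n
    apply Finset.sum_congr rfl
    intro l _
    rw [pow_add, pow_mod_of_fix (hfix i l) m, pow_mod_of_fix (hfix i l) n]
  have hfrob : ∀ i (e m : ℕ), ∑ l, w i l ^ (e * 2 ^ m) = (∑ l, w i l ^ e) ^ 2 ^ m := by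
    intro i e m
    rw [sum_pow_char_pow]
    apply Finset.sum_congr rfl
    intro l _
    rw [← pow_mul]
  have hoff : ∀ a b, a ≠ b → ∀ i, ∑ l, w i l ^ (2 ^ I a + 2 ^ E b) = 0 := by
    intro a b hab i
    rw [hmom]
    by_cases hia : i = a
    · subst hia
      rw [hI i, hE0 b i hab]
      have : ∀ l, w i l ^ 2 ^ 1 * w i l ^ 2 ^ 0 = w i l ^ 3 := fun l => by ring
      simp_rw [this]
      exact h3 i
    · rw [hI0 a i hia]
      by_cases hib : i = b
      · subst hib
        rw [hE i]
        have hs : 2 ^ s i = 2 * 2 ^ (s i - 1) := by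
          rw [← pow_succ']; congr 1; have := hs5 i; omega
        have e1 : ∀ l, w i l ^ 2 ^ 0 * w i l ^ 2 ^ (s i - 1) = w i l ^ (3 * 2 ^ (s i - 1)) := by
          intro l
          have : 3 * 2 ^ (s i - 1) = 2 ^ s i + 2 ^ (s i - 1) := by rw [hs]; ring
          rw [this, pow_add, hfix]
          simp
        simp_rw [e1]
        rw [hfrob, h3]
        simp
      · rw [hE0 b i hib]
        have e1 : ∀ l, w i l ^ 2 ^ 0 * w i l ^ 2 ^ 0 = w i l ^ 2 ^ 1 := fun l => by ring
        simp_rw [e1]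
        exact sum_pow_two_pow h1 i 1
  have hdiag : ∀ a, ∑ l, w a l ^ (2 ^ I a + 2 ^ E a) ≠ 0 := by
    intro a
    rw [hmom, hI a, hE a]
    have hs : 2 ^ s a = 2 * 2 ^ (s a - 1) := by
      rw [← pow_succ']; congr 1; have := hs5 a; omega
    have e1 : ∀ l, w a l ^ 2 ^ 1 * w a l ^ 2 ^ (s a - 1) = w a l ^ (5 * 2 ^ (s a - 1)) := by
      intro l
      have : 5 * 2 ^ (s a - 1) = 2 ^ s a * 2 + 2 ^ (s a - 1) := by rw [hs]; ring
      rw [this, pow_add, pow_mul, hfix]
      simp
    simp_rw [e1]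
    rw [hfrob]
    exact pow_ne_zero _ (h5 a)
  have hinv : ∀ f ∈ PP w, ∀ a b : GaloisField 2 t, (fun x => f (a * x + b)) ∈ PP w := by
    intro f hf a b i c d
    have := hf i (a * c) (a * d + b)
    rw [← this]
    apply Finset.sum_congr rfl
    intro l _
    simp only
    congr 1
    ring
  refine ⟨t, Nat.pos_of_ne_zero ht0, PP w, ⟨⟨PP w, rfl⟩, fun f hf a b _ => hinv f hf a b⟩,
    ?_, ?_, ?_⟩
  · -- the 6-local characterization
    have hprop : ({v | ∑ l, v l = 0} : Set (Fin 6 → ZMod 2)) ≠ Set.univ := by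
      intro h
      have h2 : (Pi.single 0 1 : Fin 6 → ZMod 2) ∈ ({v | ∑ l, v l = 0} : Set (Fin 6 → ZMod 2)) := by
        rw [h]; trivial
      simp at h2
    refine ⟨{C | ∃ i a b, C = ⟨fun l => a * w i l + b, {v | ∑ l, v l = 0}, hprop⟩}, ?_⟩
    intro f
    constructor
    · rintro hf C ⟨i, a, b, rfl⟩
      exact hf i a b
    · intro hf i a b
      exact hf _ ⟨i, a, b, rfl⟩
  · -- a trivial single orbit characterization
    have := Fintype.ofFinite (GaloisField 2 t)
    let eqv := Fintype.equivFin (GaloisField 2 t)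
    refine ⟨Fintype.card (GaloisField 2 t), ⟨fun i => eqv.symm i,
      {v | (fun x => v (eqv x)) ∈ PP w}, ?_⟩, ?_⟩
    · intro h
      obtain ⟨u, hu⟩ : ∃ u : GaloisField 2 t,
          tr (u * ∑ l, w ⟨0, hr⟩ l ^ (2 ^ I ⟨0, hr⟩ + 2 ^ E ⟨0, hr⟩)) ≠ 0 := by
        by_contra hcon
        push Not at hcon
        exact hdiag _ (eq_zero_of_tr hcon)
      have hmem : (fun j => tr (u * (eqv.symm j) ^ (2 ^ I ⟨0, hr⟩ + 2 ^ E ⟨0, hr⟩))) ∈
          ({v | (fun x => v (eqv x)) ∈ PP w} :
            Set (Fin (Fintype.card (GaloisField 2 t)) → ZMod 2)) := by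
        rw [h]; trivial
      have h2 : (fun x : GaloisField 2 t =>
          tr (u * x ^ (2 ^ I ⟨0, hr⟩ + 2 ^ E ⟨0, hr⟩))) ∈ PP w := by
        simpa using hmem
      have h3 := h2 ⟨0, hr⟩ 1 0
      apply hu
      rw [Finset.mul_sum, tr_sum, ← h3]
      apply Finset.sum_congr rfl
      intro l _
      simp
    · intro f
      constructor
      · intro hf a b _
        show (fun x => f (a * eqv.symm (eqv x) + b)) ∈ PP w
        simp only [Equiv.symm_apply_apply]
        exact hinv f hf a b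
      · intro hf
        have h2 : (fun x => f (1 * eqv.symm (eqv x) + 0)) ∈ PP w := hf 1 0 one_ne_zero
        simpa using h2
  · -- the lower bound
    rintro k ⟨C, hC⟩
    choose v hv1 hv2 using fun a => exists_weight h1 (hdiag a) C hC
    have key := card_of_triangular (K := GaloisField 2 t) (n := r) (ι := Fin k)
      (Matrix.of fun a l => algebraMap (ZMod 2) (GaloisField 2 t) (v a l) * C.pts l ^ 2 ^ I a)
      (Matrix.of fun l b => C.pts l ^ 2 ^ E b) ?_ ?_
    · simpa using key
    · intro a b hab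
      rw [Matrix.mul_apply]
      simp only [Matrix.of_apply]
      have e1 : ∀ l, algebraMap (ZMod 2) (GaloisField 2 t) (v a l) * C.pts l ^ 2 ^ I a *
          C.pts l ^ 2 ^ E b =
          algebraMap (ZMod 2) (GaloisField 2 t) (v a l) * C.pts l ^ (2 ^ I a + 2 ^ E b) := by
        intro l; rw [pow_add]; ring
      simp_rw [e1]
      apply eq_zero_of_tr
      intro u
      rw [tr_weighted (v a) (fun l => C.pts l ^ (2 ^ I a + 2 ^ E b))]
      exact hv1 a _ (quad_mem h1 (hoff a b (ne_of_lt hab)) u)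
    · intro a
      rw [Matrix.mul_apply]
      simp only [Matrix.of_apply]
      have e1 : ∀ l, algebraMap (ZMod 2) (GaloisField 2 t) (v a l) * C.pts l ^ 2 ^ I a *
          C.pts l ^ 2 ^ E a =
          algebraMap (ZMod 2) (GaloisField 2 t) (v a l) * C.pts l ^ (2 ^ I a + 2 ^ E a) := by
        intro l; rw [pow_add]; ring
      simp_rw [e1]
      exact hv2 a

end Pool.Agent.Results.MP_cb1103_lc.UnboundedLocality
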